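import Pool.Agent.Helper80.PK.Cap

/-!
# PK-T: Thue's theorem for finite packings in a disk
-/

namespace Pool.Agent.Helper79.PK

open MeasureTheory Metric Set
open scoped ENNReal ComplexConjugate

/-- The constant of the segment inequality. -/
noncomputable def kap : ℝ := 1 - 3 * √3 / (2 * Real.pi)

lemma sqrt3_sq : (√3 : ℝ) ^ 2 = 3 := Real.sq_sqrt (by norm_num)

lemma sqrt3_pos : (0 : ℝ) < √3 := Real.sqrt_pos.2 (by norm_num)

lemma kap_nonneg : 0 ≤ kap := by
  unfold kap
  have h1 : (√3 : ℝ) ≤ 2 := by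
    rw [Real.sqrt_le_left (by norm_num)]; norm_num
  have h2 := Real.pi_gt_three
  have : 3 * √3 / (2 * Real.pi) ≤ 1 := by
    rw [div_le_one (by positivity)]
    linarith
  linarith

lemma sin_lower {x : ℝ} (h0 : 0 ≤ x) (h1 : x ≤ Real.pi / 3) :
    3 * √3 / (2 * Real.pi) * x ≤ Real.sin x := by
  have hπ := Real.pi_pos
  have hc := strictConcaveOn_sin_Icc.concaveOn
  have m1 : Real.pi / 3 ∈ Icc 0 Real.pi := ⟨by positivity, by linarith⟩
  have m2 : (0 : ℝ) ∈ Icc 0 Real.pi := ⟨le_rfl, hπ.le⟩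
  have m3 : 0 ≤ x / (Real.pi / 3) := by positivity
  have m4 : 0 ≤ 1 - x / (Real.pi / 3) := by
    have : x / (Real.pi / 3) ≤ 1 := (div_le_one (by positivity)).2 h1
    linarith
  have m5 : x / (Real.pi / 3) + (1 - x / (Real.pi / 3)) = 1 := by ring
  have h := hc.2 m1 m2 m3 m4 m5
  simp only [smul_eq_mul, mul_zero, add_zero, Real.sin_zero, Real.sin_pi_div_three] at h
  have h2 : x / (Real.pi / 3) * (Real.pi / 3) = x := by field_simp
  rw [h2] at h
  refine le_trans (le_of_eq ?_) h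
  field_simp

lemma cap_le_sec {q D : ℝ} (hq : 0 < q) (hD : √3 / 2 * q ≤ D) :
    volume (capS q D) ≤ ENNReal.ofReal kap * volume (secS q D) := by
  have h3 := sqrt3_pos
  have hD0 : 0 < D := lt_of_lt_of_le (by positivity) hD
  rcases le_or_gt q D with h | h
  · have : capS q D = ∅ := by
      ext y
      simp only [mem_empty_iff_false, iff_false]
      rintro ⟨h1, h2⟩
      have := Complex.re_le_norm y
      linarith
    rw [this]
    simp
  · rw [vol_cap hq hD0 h, vol_sec hq hD0 h, ← ENNReal.ofReal_mul kap_nonneg]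
    apply ENNReal.ofReal_le_ofReal
    set α := Real.arccos (D / q) with hα
    have hDq1 : D / q ≤ 1 := (div_le_one hq).2 h.le
    have hDq0 : 0 < D / q := by positivity
    have hcos : Real.cos α = D / q := Real.cos_arccos (by linarith) hDq1
    have hα0 : 0 ≤ α := Real.arccos_nonneg _
    have hα6 : α ≤ Real.pi / 6 := by
      have h6 : Real.arccos (√3 / 2) = Real.pi / 6 := by
        rw [← Real.cos_pi_div_six]
        exact Real.arccos_cos (by positivity) (by linarith [Real.pi_pos])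
      rw [hα, ← h6]
      apply Real.arccos_le_arccos
      rw [le_div_iff₀ hq]
      exact hD
    have hDc : D = q * Real.cos α := by
      rw [hcos]; field_simp
    have hcp : 0 < Real.cos α := by rw [hcos]; exact hDq0
    have ht : D ^ 2 * Real.tan α = q ^ 2 * (Real.sin (2 * α) / 2) := by
      rw [Real.tan_eq_sin_div_cos, Real.sin_two_mul]
      nth_rw 1 [hDc]
      field_simp
    rw [ht]
    have h5 := sin_lower (x := 2 * α) (by linarith) (by linarith)
    have h6 : 0 < q ^ 2 := by positivity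
    have h7 : kap * (q ^ 2 * α) = q ^ 2 * α - q ^ 2 * (3 * √3 / (2 * Real.pi) * (2 * α) / 2) := by
      unfold kap; ring
    rw [h7]
    have := mul_le_mul_of_nonneg_left h5 h6.le
    linarith

lemma mp_rot (z u : ℂ) (hu : ‖u‖ = 1) :
    MeasurePreserving (fun y : ℂ => (y - z) * u) volume volume := by
  have h1 := measurePreserving_sub_right (volume : Measure ℂ) z
  have hu' : u ∈ Submonoid.unitSphere ℂ := by
    rw [← SetLike.mem_coe]
    simpa [Submonoid.unitSphere] using hu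
  have h2 : MeasurePreserving (rotation ⟨u, hu'⟩ : ℂ → ℂ)
      volume volume := LinearIsometryEquiv.measurePreserving _
  have h3 := h2.comp h1
  have h4 : (fun y : ℂ => (y - z) * u) = (rotation ⟨u, hu'⟩ : ℂ → ℂ) ∘ fun x => x - z := by
    funext y
    show (y - z) * u = u * (y - z)
    ring
  rw [h4]
  exact h3

/-- The unit vector (conjugate) in the direction of `w - z`. -/
noncomputable def uvec (z w : ℂ) : ℂ := conj ((w - z) / (‖w - z‖ : ℂ))

lemma norm_uvec {z w : ℂ} (h : z ≠ w) : ‖uvec z w‖ = 1 := by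
  have : ‖w - z‖ ≠ 0 := norm_ne_zero_iff.2 (sub_ne_zero.2 h.symm)
  unfold uvec
  rw [RCLike.norm_conj, norm_div, Complex.norm_real, norm_norm, div_self this]

lemma re_uvec (y z w : ℂ) :
    ((y - z) * uvec z w).re = ((y - z) * conj (w - z)).re / ‖w - z‖ := by
  unfold uvec
  rw [map_div₀, Complex.conj_ofReal, mul_div_assoc', Complex.div_ofReal_re]

lemma norm_sub_sq_formula (y z w : ℂ) :
    ‖y - w‖ ^ 2 = ‖y - z‖ ^ 2 + ‖w - z‖ ^ 2 - 2 * ((y - z) * conj (w - z)).re := by
  have h : y - w = (y - z) - (w - z) := by ring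
  rw [h, ← Complex.normSq_eq_norm_sq, ← Complex.normSq_eq_norm_sq, ← Complex.normSq_eq_norm_sq,
    Complex.normSq_sub]

/-- The cap of the disk of radius `q` around `z` cut off by the bisector of `z` and `w`. -/
noncomputable def capZ (q : ℝ) (z w : ℂ) : Set ℂ :=
  (fun y : ℂ => (y - z) * uvec z w) ⁻¹' capS q (‖w - z‖ / 2)

/-- The corresponding sector. -/
noncomputable def secZ (q : ℝ) (z w : ℂ) : Set ℂ :=
  (fun y : ℂ => (y - z) * uvec z w) ⁻¹' secS q (‖w - z‖ / 2)

lemma vol_capZ {q : ℝ} {z w : ℂ} (h : z ≠ w) :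
    volume (capZ q z w) = volume (capS q (‖w - z‖ / 2)) :=
  (mp_rot z (uvec z w) (norm_uvec h)).measure_preimage (measurableSet_capS _ _).nullMeasurableSet

lemma vol_secZ {q : ℝ} {z w : ℂ} (h : z ≠ w) :
    volume (secZ q z w) = volume (secS q (‖w - z‖ / 2)) :=
  (mp_rot z (uvec z w) (norm_uvec h)).measure_preimage (measurableSet_secS _ _).nullMeasurableSet

lemma measurableSet_secZ (q : ℝ) (z w : ℂ) : MeasurableSet (secZ q z w) := by
  apply (measurableSet_secS _ _).preimage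
  fun_prop

lemma secZ_subset {q : ℝ} {z w : ℂ} (h : z ≠ w) : secZ q z w ⊆ ball z q := by
  intro y hy
  have h1 := hy.1
  simp only [norm_mul, norm_uvec h, mul_one] at h1
  rw [mem_ball, dist_eq_norm]
  exact h1

lemma mem_capZ {q : ℝ} {z w y : ℂ} (h : z ≠ w) (hy : y ∈ ball z q)
    (hd : dist y w ≤ dist y z) : y ∈ capZ q z w := by
  have hd0 : 0 < ‖w - z‖ := norm_pos_iff.2 (sub_ne_zero.2 h.symm)
  refine ⟨?_, ?_⟩
  · simp only [norm_mul, norm_uvec h, mul_one]
    rw [mem_ball, dist_eq_norm] at hy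
    exact hy
  · show ‖w - z‖ / 2 ≤ ((y - z) * uvec z w).re
    rw [re_uvec, le_div_iff₀ hd0]
    rw [dist_eq_norm, dist_eq_norm] at hd
    have h1 : ‖y - w‖ ^ 2 ≤ ‖y - z‖ ^ 2 := pow_le_pow_left₀ (norm_nonneg _) hd 2
    rw [norm_sub_sq_formula y z w] at h1
    nlinarith

lemma sum_sq_diff (a b c : ℂ) :
    ‖a - b‖ ^ 2 + ‖b - c‖ ^ 2 + ‖c - a‖ ^ 2 ≤ 3 * (‖a‖ ^ 2 + ‖b‖ ^ 2 + ‖c‖ ^ 2) := by
  simp only [← Complex.normSq_eq_norm_sq, Complex.normSq_apply, Complex.sub_re, Complex.sub_im]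
  nlinarith [sq_nonneg (a.re + b.re + c.re), sq_nonneg (a.im + b.im + c.im)]

lemma secZ_disjoint {q : ℝ} (hq : 0 < q) {z w w' : ℂ} (h1 : z ≠ w) (h2 : z ≠ w') (h3 : w ≠ w')
    (d1 : √3 * q ≤ ‖w - z‖) (d2 : √3 * q ≤ ‖w' - z‖) (d3 : √3 * q ≤ ‖w - w'‖) :
    Disjoint (secZ q z w) (secZ q z w') := by
  rw [Set.disjoint_left]
  intro y hy hy'
  have key : ∀ v : ℂ, z ≠ v → y ∈ secZ q z v →
      y ≠ z ∧ ‖(z + (q / ‖y - z‖ : ℝ) * (y - z)) - v‖ ^ 2 < q ^ 2 := by
    intro v hv hyv
    have hd0 : 0 < ‖v - z‖ := norm_pos_iff.2 (sub_ne_zero.2 hv.symm)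
    have e2 := hyv.2
    simp only [norm_mul, norm_uvec hv, mul_one] at e2
    rw [re_uvec] at e2
    have hyz : y ≠ z := by
      rintro rfl
      simp at e2
    refine ⟨hyz, ?_⟩
    have hρ : 0 < ‖y - z‖ := norm_pos_iff.2 (sub_ne_zero.2 hyz)
    rw [norm_sub_sq_formula _ z v]
    have e3 : z + (q / ‖y - z‖ : ℝ) * (y - z) - z = (q / ‖y - z‖ : ℝ) * (y - z) := by ring
    rw [e3, norm_mul, Complex.norm_real, Real.norm_of_nonneg (by positivity),
      div_mul_cancel₀ _ hρ.ne', mul_assoc, Complex.re_ofReal_mul]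
    set x := ((y - z) * conj (v - z)).re with hx
    have e4 : ‖v - z‖ / 2 * ‖y - z‖ * ‖v - z‖ < q * x := by
      have := mul_lt_mul_of_pos_right e2 hd0
      have e5 : q * (x / ‖v - z‖) * ‖v - z‖ = q * x := by field_simp
      rw [e5] at this
      exact this
    have e6 : ‖v - z‖ ^ 2 / 2 < q / ‖y - z‖ * x := by
      rw [div_mul_eq_mul_div, lt_div_iff₀ hρ]
      nlinarith
    linarith
  obtain ⟨hyz, k1⟩ := key w h1 hy
  obtain ⟨-, k2⟩ := key w' h2 hy'
  have hρ : 0 < ‖y - z‖ := norm_pos_iff.2 (sub_ne_zero.2 hyz)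
  set Y := z + (q / ‖y - z‖ : ℝ) * (y - z) with hY
  have k0 : ‖Y - z‖ ^ 2 = q ^ 2 := by
    have e3 : Y - z = (q / ‖y - z‖ : ℝ) * (y - z) := by rw [hY]; ring
    rw [e3, norm_mul, Complex.norm_real, Real.norm_of_nonneg (by positivity),
      div_mul_cancel₀ _ hρ.ne']
  have hs := sum_sq_diff (Y - z) (Y - w) (Y - w')
  have a1 : Y - z - (Y - w) = w - z := by ring
  have a2 : Y - w - (Y - w') = -(w - w') := by ring
  have a3 : Y - w' - (Y - z) = -(w' - z) := by ring
  rw [a1, a2, a3, norm_neg, norm_neg, k0] at hs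
  have hsq : (√3 * q) ^ 2 = 3 * q ^ 2 := by rw [mul_pow, sqrt3_sq]
  have hp : 0 ≤ √3 * q := by have := sqrt3_pos; positivity
  have b1 := pow_le_pow_left₀ hp d1 2
  have b2 := pow_le_pow_left₀ hp d2 2
  have b3 := pow_le_pow_left₀ hp d3 2
  rw [hsq] at b1 b2 b3
  linarith

/-- The truncated Voronoi cell. -/
def cellZ (s : Finset ℂ) (q : ℝ) (z : ℂ) : Set ℂ :=
  ball z q \ ⋃ w ∈ s.erase z, {y | dist y w ≤ dist y z}

lemma measurableSet_cellZ (s : Finset ℂ) (q : ℝ) (z : ℂ) : MeasurableSet (cellZ s q z) := by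
  apply measurableSet_ball.diff
  apply Finset.measurableSet_biUnion
  intro w _
  exact (isClosed_le (continuous_id.dist continuous_const)
    (continuous_id.dist continuous_const)).measurableSet

lemma cellZ_disjoint (s : Finset ℂ) (q : ℝ) {z w : ℂ} (hz : z ∈ s) (hw : w ∈ s) (h : z ≠ w) :
    Disjoint (cellZ s q z) (cellZ s q w) := by
  rw [Set.disjoint_left]
  rintro y ⟨-, hy⟩ ⟨-, hy'⟩
  apply hy
  simp only [mem_iUnion, exists_prop]
  refine ⟨w, Finset.mem_erase.2 ⟨h.symm, hw⟩, ?_⟩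
  by_contra h1
  apply hy'
  simp only [mem_iUnion, exists_prop]
  refine ⟨z, Finset.mem_erase.2 ⟨h, hz⟩, ?_⟩
  have h2 : ¬ dist y w ≤ dist y z := h1
  exact (not_le.1 h2).le

lemma vol_cellZ (s : Finset ℂ) {q : ℝ} (hq : 0 < q) {z : ℂ} (hz : z ∈ s)
    (h2 : ∀ z ∈ s, ∀ w ∈ s, z ≠ w → √3 * q ≤ dist z w) :
    ENNReal.ofReal ((1 - kap) * (Real.pi * q ^ 2)) ≤ volume (cellZ s q z) := by
  have hball : volume (ball z q) = ENNReal.ofReal (Real.pi * q ^ 2) := by
    rw [Complex.volume_ball, ENNReal.ofReal_mul Real.pi_pos.le, mul_comm,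
      ENNReal.ofReal_pow hq.le]
    congr 1
    rw [← NNReal.coe_real_pi, ENNReal.ofReal_coe_nnreal]
  have hne : ∀ w ∈ s.erase z, z ≠ w := fun w hw => (Finset.ne_of_mem_erase hw).symm
  have hms : ∀ w ∈ s.erase z, w ∈ s := fun w hw => Finset.mem_of_mem_erase hw
  have hsub : ball z q ⊆ cellZ s q z ∪ ⋃ w ∈ s.erase z, capZ q z w := by
    intro y hy
    by_cases hc : y ∈ cellZ s q z
    · exact Or.inl hc
    · right
      have : y ∈ ⋃ w ∈ s.erase z, {y | dist y w ≤ dist y z} := by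
        by_contra hn
        exact hc ⟨hy, hn⟩
      simp only [mem_iUnion, exists_prop] at this ⊢
      obtain ⟨w, hw, hd⟩ := this
      exact ⟨w, hw, mem_capZ (hne w hw) hy hd⟩
  have hdist : ∀ a ∈ s, ∀ b ∈ s, a ≠ b → √3 * q ≤ ‖b - a‖ := by
    intro a ha b hb hab
    have := h2 a ha b hb hab
    rwa [dist_comm, dist_eq_norm] at this
  have hsum : ∑ w ∈ s.erase z, volume (secZ q z w) ≤ volume (ball z q) := by
    rw [← measure_biUnion_finset]
    · apply measure_mono
      apply iUnion₂_subset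
      intro w hw
      exact secZ_subset (hne w hw)
    · intro w hw w' hw' hww
      exact secZ_disjoint hq (hne w hw) (hne w' hw') hww
        (hdist z hz w (hms w hw) (hne w hw)) (hdist z hz w' (hms w' hw') (hne w' hw'))
        (hdist w' (hms w' hw') w (hms w hw) (Ne.symm hww))
    · intro w _
      exact measurableSet_secZ q z w
  have hcap : ∑ w ∈ s.erase z, volume (capZ q z w) ≤
      ENNReal.ofReal kap * volume (ball z q) := by
    calc ∑ w ∈ s.erase z, volume (capZ q z w)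
        ≤ ∑ w ∈ s.erase z, ENNReal.ofReal kap * volume (secZ q z w) := by
          apply Finset.sum_le_sum
          intro w hw
          rw [vol_capZ (hne w hw), vol_secZ (hne w hw)]
          apply cap_le_sec hq
          have := hdist z hz w (hms w hw) (hne w hw)
          linarith
      _ = ENNReal.ofReal kap * ∑ w ∈ s.erase z, volume (secZ q z w) := by
          rw [Finset.mul_sum]
      _ ≤ _ := by gcongr
  have hmain : volume (ball z q) ≤ volume (cellZ s q z) +
      ENNReal.ofReal kap * volume (ball z q) := by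
    calc volume (ball z q) ≤ volume (cellZ s q z ∪ ⋃ w ∈ s.erase z, capZ q z w) :=
          measure_mono hsub
      _ ≤ volume (cellZ s q z) + volume (⋃ w ∈ s.erase z, capZ q z w) := measure_union_le _ _
      _ ≤ volume (cellZ s q z) + ∑ w ∈ s.erase z, volume (capZ q z w) := by
          gcongr
          exact measure_biUnion_finset_le _ _
      _ ≤ _ := by gcongr
  rw [hball, ← ENNReal.ofReal_mul kap_nonneg] at hmain
  have h3 : (1 - kap) * (Real.pi * q ^ 2) = Real.pi * q ^ 2 - kap * (Real.pi * q ^ 2) := by ring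
  rw [h3, ENNReal.ofReal_sub _ (by have := kap_nonneg; have := Real.pi_pos; positivity)]
  exact tsub_le_iff_right.2 hmain

/-- PK-T. Thue's theorem for finite packings in a disk. -/
theorem thue (s : Finset ℂ) (c : ℂ) {R r : ℝ} (hr : 0 < r) (hR : 0 ≤ R)
    (h1 : ∀ z ∈ s, dist z c ≤ R) (h2 : ∀ z ∈ s, ∀ w ∈ s, z ≠ w → 2 * r ≤ dist z w) :
    (s.card : ℝ) * (2 * √3 * r ^ 2) ≤ Real.pi * (R + 2 * r / √3) ^ 2 := by
  have h3 := sqrt3_pos
  set q := 2 * r / √3 with hq
  have hq0 : 0 < q := by positivity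
  have hqr : √3 * q = 2 * r := by rw [hq]; field_simp
  have hval : (1 - kap) * (Real.pi * q ^ 2) = 2 * √3 * r ^ 2 := by
    unfold kap
    have hπ := Real.pi_pos
    have : q ^ 2 = 4 * r ^ 2 / 3 := by
      rw [hq, div_pow, sqrt3_sq]; ring
    rw [this]
    field_simp
    ring
  have hcell : ∀ z ∈ s, ENNReal.ofReal (2 * √3 * r ^ 2) ≤ volume (cellZ s q z) := by
    intro z hz
    rw [← hval]
    apply vol_cellZ s hq0 hz
    intro a ha b hb hab
    rw [hqr]
    exact h2 a ha b hb hab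
  have hU : volume (⋃ z ∈ s, cellZ s q z) = ∑ z ∈ s, volume (cellZ s q z) := by
    rw [measure_biUnion_finset]
    · intro a ha b hb hab
      exact cellZ_disjoint s q ha hb hab
    · intro z _
      exact measurableSet_cellZ s q z
  have hsub : (⋃ z ∈ s, cellZ s q z) ⊆ ball c (R + q) := by
    apply iUnion₂_subset
    intro z hz y hy
    have e1 : dist y z < q := hy.1
    have e2 := h1 z hz
    rw [mem_ball]
    calc dist y c ≤ dist y z + dist z c := dist_triangle _ _ _
      _ < R + q := by linarith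
  have hfin : (s.card : ℝ≥0∞) * ENNReal.ofReal (2 * √3 * r ^ 2) ≤
      ENNReal.ofReal (Real.pi * (R + q) ^ 2) := by
    calc (s.card : ℝ≥0∞) * ENNReal.ofReal (2 * √3 * r ^ 2)
        = ∑ z ∈ s, ENNReal.ofReal (2 * √3 * r ^ 2) := by
          rw [Finset.sum_const, nsmul_eq_mul]
      _ ≤ ∑ z ∈ s, volume (cellZ s q z) := Finset.sum_le_sum hcell
      _ = volume (⋃ z ∈ s, cellZ s q z) := hU.symm
      _ ≤ volume (ball c (R + q)) := measure_mono hsub
      _ = ENNReal.ofReal (Real.pi * (R + q) ^ 2) := by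
          rw [Complex.volume_ball, ENNReal.ofReal_mul Real.pi_pos.le, mul_comm,
            ENNReal.ofReal_pow (by positivity)]
          congr 1
          rw [← NNReal.coe_real_pi, ENNReal.ofReal_coe_nnreal]
  rw [← ENNReal.ofReal_natCast, ← ENNReal.ofReal_mul (by positivity)] at hfin
  exact (ENNReal.ofReal_le_ofReal_iff (by have := Real.pi_pos; positivity)).1 hfin

end Pool.Agent.Helper79.PK
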