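import Pool.Agent.Helper79.PK.Defs

/-!
# Areas of circular segments and sectors (for PK-T)
-/

namespace Pool.Agent.Helper79.PK

open MeasureTheory Metric Set
open scoped ENNReal

/-- The closed half plane part of an open disk around `0`. -/
def capS (q D : ℝ) : Set ℂ := {y | ‖y‖ < q ∧ D ≤ y.re}

/-- The sector of an open disk around `0`. -/
def secS (q D : ℝ) : Set ℂ := {y | ‖y‖ < q ∧ D * ‖y‖ < q * y.re}

lemma measurableSet_capS (q D : ℝ) : MeasurableSet (capS q D) := by
  apply MeasurableSet.inter
  · exact (isOpen_lt continuous_norm continuous_const).measurableSet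
  · exact (isClosed_le continuous_const Complex.continuous_re).measurableSet

lemma measurableSet_secS (q D : ℝ) : MeasurableSet (secS q D) := by
  apply MeasurableSet.inter
  · exact (isOpen_lt continuous_norm continuous_const).measurableSet
  · exact (isOpen_lt (continuous_const.mul continuous_norm)
      (continuous_const.mul Complex.continuous_re)).measurableSet

lemma vol_polar {S : Set ℂ} (hS : MeasurableSet S) :
    volume S = ∫⁻ θ in Ioo (-Real.pi) Real.pi, ∫⁻ ρ in Ioi (0 : ℝ),
      ENNReal.ofReal ρ * S.indicator 1 (Complex.polarCoord.symm (ρ, θ)) := by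
  rw [← lintegral_indicator_one hS, ← Complex.lintegral_comp_polarCoord_symm, polarCoord_target,
    Measure.volume_eq_prod]
  rw [← Measure.prod_restrict, lintegral_prod_symm']
  · rfl
  · have h1 : Measurable (fun p : ℝ × ℝ => Complex.polarCoord.symm p) := by
      have : (fun p : ℝ × ℝ => Complex.polarCoord.symm p) =
          fun p : ℝ × ℝ => (p.1 : ℂ) * (Real.cos p.2 + Real.sin p.2 * Complex.I) := by
        funext p
        exact Complex.polarCoord_symm_apply p
      rw [this]
      fun_prop
    have h2 : Measurable (S.indicator (1 : ℂ → ℝ≥0∞)) := measurable_one.indicator hS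
    exact (ENNReal.measurable_ofReal.comp measurable_fst).mul (h2.comp h1)

lemma lint_id {a b : ℝ} (ha : 0 ≤ a) (hab : a ≤ b) :
    ∫⁻ ρ in Ico a b, ENNReal.ofReal ρ = ENNReal.ofReal ((b ^ 2 - a ^ 2) / 2) := by
  have h : ∫ ρ in Ico a b, ρ = (b ^ 2 - a ^ 2) / 2 := by
    rw [integral_Ico_eq_integral_Ioo, ← integral_Ioc_eq_integral_Ioo,
      ← intervalIntegral.integral_of_le hab, integral_id]
  rw [← h, ofReal_integral_eq_lintegral_ofReal]
  · have : IntegrableOn (fun x : ℝ => x) (Icc a b) :=
      continuous_id.integrableOn_Icc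
    exact this.mono_set Ico_subset_Icc_self
  · filter_upwards [ae_restrict_mem measurableSet_Ico] with x hx
    exact ha.trans hx.1

lemma polar_norm {ρ θ : ℝ} (hρ : 0 < ρ) : ‖Complex.polarCoord.symm (ρ, θ)‖ = ρ := by
  rw [Complex.norm_polarCoord_symm, abs_of_pos hρ]

lemma polar_re {ρ θ : ℝ} : (Complex.polarCoord.symm (ρ, θ)).re = ρ * Real.cos θ := by
  rw [Complex.polarCoord_symm_apply]
  simp [← Complex.ofReal_cos, ← Complex.ofReal_sin]

lemma inner_cap {q D θ : ℝ} (hq : 0 < q) (hD : 0 < D) :
    ∫⁻ ρ in Ioi (0 : ℝ),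
      ENNReal.ofReal ρ * (capS q D).indicator 1 (Complex.polarCoord.symm (ρ, θ)) =
    {θ : ℝ | D < q * Real.cos θ}.indicator
      (fun θ => ENNReal.ofReal ((q ^ 2 - (D / Real.cos θ) ^ 2) / 2)) θ := by
  by_cases h : D < q * Real.cos θ
  · have hc : 0 < Real.cos θ := by
      by_contra hc
      push Not at hc
      nlinarith
    rw [indicator_of_mem (by exact h)]
    have h1 : D / Real.cos θ ≤ q := by
      rw [div_le_iff₀ hc]; exact h.le
    rw [← lint_id (by positivity) h1]
    rw [← lintegral_indicator measurableSet_Ioi, ← lintegral_indicator measurableSet_Ico]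
    congr 1
    funext ρ
    by_cases hρ : ρ ∈ Ico (D / Real.cos θ) q
    · have hρ0 : 0 < ρ := lt_of_lt_of_le (by positivity) hρ.1
      rw [indicator_of_mem hρ, indicator_of_mem (by exact hρ0), indicator_of_mem]
      · simp
      · refine ⟨?_, ?_⟩
        · rw [polar_norm hρ0]; exact hρ.2
        · rw [polar_re]
          exact (div_le_iff₀ hc).1 hρ.1
    · rw [indicator_of_notMem hρ]
      by_cases hρ0 : 0 < ρ
      · rw [indicator_of_mem (by exact hρ0), indicator_of_notMem]
        · simp
        · rintro ⟨h3, h4⟩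
          rw [polar_norm hρ0] at h3
          rw [polar_re] at h4
          exact hρ ⟨(div_le_iff₀ hc).2 h4, h3⟩
      · rw [indicator_of_notMem (by exact hρ0)]
  · rw [indicator_of_notMem (by exact h)]
    rw [← lintegral_indicator measurableSet_Ioi]
    have : (Ioi (0 : ℝ)).indicator (fun ρ =>
        ENNReal.ofReal ρ * (capS q D).indicator 1 (Complex.polarCoord.symm (ρ, θ))) = 0 := by
      funext ρ
      by_cases hρ0 : 0 < ρ
      · rw [indicator_of_mem (by exact hρ0), indicator_of_notMem]
        · simp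
        · rintro ⟨h3, h4⟩
          rw [polar_norm hρ0] at h3
          rw [polar_re] at h4
          apply h
          have hc : 0 < Real.cos θ := by
            by_contra hc
            push Not at hc
            nlinarith
          nlinarith
      · rw [indicator_of_notMem (by exact hρ0)]
        rfl
    rw [this]
    simp

lemma inner_sec {q D θ : ℝ} (hq : 0 < q) (hD : 0 < D) :
    ∫⁻ ρ in Ioi (0 : ℝ),
      ENNReal.ofReal ρ * (secS q D).indicator 1 (Complex.polarCoord.symm (ρ, θ)) =
    {θ : ℝ | D < q * Real.cos θ}.indicator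
      (fun _ => ENNReal.ofReal (q ^ 2 / 2)) θ := by
  by_cases h : D < q * Real.cos θ
  · rw [indicator_of_mem (by exact h)]
    have h0 : (q ^ 2 / 2 : ℝ) = (q ^ 2 - 0 ^ 2) / 2 := by ring
    rw [h0, ← lint_id le_rfl hq.le]
    rw [← lintegral_indicator measurableSet_Ioi, ← lintegral_indicator measurableSet_Ico]
    congr 1
    funext ρ
    by_cases hρ0 : 0 < ρ
    · rw [indicator_of_mem (by exact hρ0)]
      by_cases hρ : ρ < q
      · rw [indicator_of_mem (show ρ ∈ Ico 0 q from ⟨hρ0.le, hρ⟩), indicator_of_mem]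
        · simp
        · refine ⟨?_, ?_⟩
          · rw [polar_norm hρ0]; exact hρ
          · rw [polar_re, polar_norm hρ0]
            nlinarith
      · rw [indicator_of_notMem (show ρ ∉ Ico (0 : ℝ) q from fun h' => hρ h'.2),
          indicator_of_notMem]
        · simp
        · rintro ⟨h3, h4⟩
          rw [polar_norm hρ0] at h3
          exact hρ h3
    · rw [indicator_of_notMem (by exact hρ0)]
      by_cases hρ : ρ ∈ Ico 0 q
      · have : ρ = 0 := le_antisymm (not_lt.1 hρ0) hρ.1
        rw [indicator_of_mem hρ, this]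
        simp
      · rw [indicator_of_notMem hρ]
  · rw [indicator_of_notMem (by exact h)]
    rw [← lintegral_indicator measurableSet_Ioi]
    have : (Ioi (0 : ℝ)).indicator (fun ρ =>
        ENNReal.ofReal ρ * (secS q D).indicator 1 (Complex.polarCoord.symm (ρ, θ))) = 0 := by
      funext ρ
      by_cases hρ0 : 0 < ρ
      · rw [indicator_of_mem (by exact hρ0), indicator_of_notMem]
        · simp
        · rintro ⟨h3, h4⟩
          rw [polar_norm hρ0] at h3
          rw [polar_re, polar_norm hρ0] at h4
          apply h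
          have h5 : ρ * D < ρ * (q * Real.cos θ) := by nlinarith
          exact lt_of_mul_lt_mul_left h5 hρ0.le
      · rw [indicator_of_notMem (by exact hρ0)]
        rfl
    rw [this]
    simp

lemma angle_set {q D : ℝ} (hq : 0 < q) (hD : 0 < D) (hDq : D < q) :
    Ioo (-Real.pi) Real.pi ∩ {θ : ℝ | D < q * Real.cos θ} =
      Ioo (-Real.arccos (D / q)) (Real.arccos (D / q)) := by
  have hα0 : 0 ≤ Real.arccos (D / q) := Real.arccos_nonneg _
  have hαπ : Real.arccos (D / q) ≤ Real.pi := Real.arccos_le_pi _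
  have hcos : Real.cos (Real.arccos (D / q)) = D / q :=
    Real.cos_arccos (by have : 0 < D / q := by positivity
                        linarith) ((div_le_one hq).2 hDq.le)
  ext θ
  constructor
  · rintro ⟨⟨h1, h2⟩, h3⟩
    have h4 : |θ| ≤ Real.pi := abs_le.2 ⟨h1.le, h2.le⟩
    have h5 : Real.cos (Real.arccos (D / q)) < Real.cos |θ| := by
      rw [hcos, Real.cos_abs, div_lt_iff₀ hq]
      rw [mul_comm]; exact h3
    have h6 : |θ| < Real.arccos (D / q) :=
      (Real.strictAntiOn_cos.lt_iff_gt ⟨hα0, hαπ⟩ ⟨abs_nonneg _, h4⟩).1 h5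
    exact abs_lt.1 h6
  · intro h
    have h6 : |θ| < Real.arccos (D / q) := abs_lt.2 h
    refine ⟨⟨by linarith [h.1], by linarith [h.2]⟩, ?_⟩
    have h5 : Real.cos (Real.arccos (D / q)) < Real.cos |θ| :=
      (Real.strictAntiOn_cos.lt_iff_gt ⟨hα0, hαπ⟩ ⟨abs_nonneg _, h6.le.trans hαπ⟩).2 h6
    rw [hcos, Real.cos_abs, div_lt_iff₀ hq, mul_comm] at h5
    exact h5

lemma meas_cos {q D : ℝ} : MeasurableSet {θ : ℝ | D < q * Real.cos θ} :=
  (isOpen_lt continuous_const (continuous_const.mul Real.continuous_cos)).measurableSet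

lemma vol_sec {q D : ℝ} (hq : 0 < q) (hD : 0 < D) (hDq : D < q) :
    volume (secS q D) = ENNReal.ofReal (q ^ 2 * Real.arccos (D / q)) := by
  rw [vol_polar (measurableSet_secS q D)]
  simp_rw [inner_sec hq hD]
  rw [setLIntegral_indicator meas_cos, inter_comm, angle_set hq hD hDq]
  rw [setLIntegral_const, Real.volume_Ioo, ← ENNReal.ofReal_mul (by positivity)]
  congr 1
  ring

lemma vol_cap {q D : ℝ} (hq : 0 < q) (hD : 0 < D) (hDq : D < q) :
    volume (capS q D) = ENNReal.ofReal
      (q ^ 2 * Real.arccos (D / q) - D ^ 2 * Real.tan (Real.arccos (D / q))) := by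
  rw [vol_polar (measurableSet_capS q D)]
  simp_rw [inner_cap hq hD]
  rw [setLIntegral_indicator meas_cos, inter_comm, angle_set hq hD hDq]
  set α := Real.arccos (D / q) with hα
  have hα0 : 0 ≤ α := Real.arccos_nonneg _
  have hα2 : α < Real.pi / 2 := by
    rw [hα]; exact Real.arccos_lt_pi_div_two.2 (by positivity)
  have hpos : ∀ θ ∈ Icc (-α) α, 0 < Real.cos θ := by
    intro θ hθ
    exact Real.cos_pos_of_mem_Ioo ⟨by linarith [hθ.1], by linarith [hθ.2]⟩
  have hcont : ContinuousOn (fun θ => (q ^ 2 - (D / Real.cos θ) ^ 2) / 2) (Icc (-α) α) := by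
    apply ContinuousOn.div_const
    apply ContinuousOn.sub continuousOn_const
    apply ContinuousOn.pow
    exact ContinuousOn.div continuousOn_const Real.continuous_cos.continuousOn
      (fun θ hθ => (hpos θ hθ).ne')
  have hint : ∫ θ in Ioo (-α) α, (q ^ 2 - (D / Real.cos θ) ^ 2) / 2 =
      q ^ 2 * α - D ^ 2 * Real.tan α := by
    rw [← integral_Ioc_eq_integral_Ioo, ← intervalIntegral.integral_of_le (by linarith)]
    have := intervalIntegral.integral_eq_sub_of_hasDerivAt (a := -α) (b := α)
      (f := fun θ => (q ^ 2 * θ - D ^ 2 * Real.tan θ) / 2)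
      (f' := fun θ => (q ^ 2 - (D / Real.cos θ) ^ 2) / 2) ?_ ?_
    · rw [this, Real.tan_neg]; ring
    · intro θ hθ
      rw [uIcc_of_le (by linarith)] at hθ
      have h1 := Real.hasDerivAt_tan (hpos θ hθ).ne'
      have h2 := (((hasDerivAt_id θ).const_mul (q ^ 2)).sub (h1.const_mul (D ^ 2))).div_const 2
      refine h2.congr_deriv ?_
      rw [div_pow]; ring
    · apply ContinuousOn.intervalIntegrable
      rw [uIcc_of_le (by linarith)]
      exact hcont
  rw [← hint, ofReal_integral_eq_lintegral_ofReal]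
  · exact (hcont.integrableOn_Icc).mono_set Ioo_subset_Icc_self
  · filter_upwards [ae_restrict_mem measurableSet_Ioo] with θ hθ
    have h1 := hpos θ (Ioo_subset_Icc_self hθ)
    have h2 : D < q * Real.cos θ := by
      have := (angle_set hq hD hDq).symm.subset hθ
      exact this.2
    have h3 : D / Real.cos θ ≤ q := by
      rw [div_le_iff₀ h1]; exact h2.le
    have h4 : 0 ≤ D / Real.cos θ := by positivity
    have : (D / Real.cos θ) ^ 2 ≤ q ^ 2 := by
      apply pow_le_pow_left₀ h4 h3
    simp only [Pi.zero_apply]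
    linarith

end Pool.Agent.Helper79.PK
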